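import Pool.Agent.N838.BT.Stm

/-!
Project BT, part ISO: splitting of an infinite product measure over words (helper340).
-/

set_option autoImplicit false

namespace Pool.Agent.N340.BT

open MeasureTheory N838.BT

/-- the word with the given first letter and rest -/
def cc (p : ℕ × List ℕ) : List ℕ := p.1 :: p.2

theorem cc_inj : Function.Injective cc := by
  rintro ⟨a, b⟩ ⟨a', b'⟩ h
  have h1 : a = a' ∧ b = b' := List.cons_eq_cons.1 h
  rw [h1.1, h1.2]

/-- the family with the given value at the empty word and the given families below the letters -/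
def ivv {X : Type} (q : X × (ℕ → List ℕ → X)) : List ℕ → X
  | [] => q.1
  | i :: u => q.2 i u

theorem prod_split (s : Finset (List ℕ)) (φ : List ℕ → ENNReal) :
    ∏ w ∈ s, φ w = (if [] ∈ s then φ [] else 1) *
      ∏ p ∈ s.preimage cc cc_inj.injOn, φ (cc p) := by
  classical
  rw [Finset.prod_preimage' cc s cc_inj.injOn φ,
    ← Finset.prod_filter_mul_prod_filter_not s (fun w => w = []) φ]
  congr 1
  · split_ifs with h
    · have h1 : s.filter (fun w => w = []) = {[]} := by
        ext w
        rw [Finset.mem_filter, Finset.mem_singleton]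
        exact ⟨fun h2 => h2.2, fun h2 => ⟨by rw [h2]; exact h, h2⟩⟩
      rw [h1, Finset.prod_singleton]
    · refine Finset.prod_eq_one fun w hw => ?_
      rw [Finset.mem_filter] at hw
      rw [hw.2] at hw
      exact absurd hw.1 h
  · refine Finset.prod_congr (Finset.filter_congr fun w _ => ?_) fun _ _ => rfl
    cases w with
    | nil => simp [cc]
    | cons i u => simp [cc]

theorem t_ISO : ISO := by
  intro X _ ν _
  classical
  have hinv : Measurable (ivv (X := X)) := by
    refine measurable_pi_iff.2 fun w => ?_
    cases w with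
    | nil => exact measurable_fst
    | cons i u =>
      exact (measurable_pi_apply u).comp ((measurable_pi_apply i).comp measurable_snd)
  have key : (ν.prod (Measure.infinitePi fun _ : ℕ =>
      Measure.infinitePi fun _ : List ℕ => ν)).map ivv =
      Measure.infinitePi fun _ : List ℕ => ν := by
    refine Measure.eq_infinitePi _ fun s t ht => ?_
    rw [Measure.map_apply hinv (MeasurableSet.pi s.countable_toSet fun i _ => ht i)]
    have hpre : ivv ⁻¹' (Set.pi s t) = {x | [] ∈ s → x ∈ t []} ×ˢ
        ((MeasurableEquiv.curry ℕ (List ℕ) X).symm ⁻¹'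
          (Set.pi (s.preimage cc cc_inj.injOn) (fun p => t (cc p)))) := by
      ext ⟨x, f⟩
      constructor
      · intro h
        exact ⟨fun h0 => h [] h0, fun p hp => h (cc p) (Finset.mem_preimage.1 hp)⟩
      · rintro ⟨h1, h2⟩ w hw
        cases w with
        | nil => exact h1 hw
        | cons i u => exact h2 (i, u) (Finset.mem_preimage.2 hw)
    have hB : (Measure.infinitePi fun _ : ℕ => Measure.infinitePi fun _ : List ℕ => ν)
        ((MeasurableEquiv.curry ℕ (List ℕ) X).symm ⁻¹'
          (Set.pi (s.preimage cc cc_inj.injOn) (fun p => t (cc p)))) =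
        ∏ p ∈ s.preimage cc cc_inj.injOn, ν (t (cc p)) := by
      rw [← Measure.map_apply (MeasurableEquiv.curry ℕ (List ℕ) X).symm.measurable
        (MeasurableSet.pi (s.preimage cc cc_inj.injOn).countable_toSet fun p _ => ht (cc p)),
        Measure.infinitePi_map_curry_symm (fun (_ : ℕ) (_ : List ℕ) => ν),
        Measure.infinitePi_pi _ fun p _ => ht (cc p)]
    have hA : ν {x | [] ∈ s → x ∈ t []} = if [] ∈ s then ν (t []) else 1 := by
      split_ifs with h
      · congr 1
        ext x
        exact ⟨fun h1 => h1 h, fun h1 _ => h1⟩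
      · rw [show {x | [] ∈ s → x ∈ t []} = Set.univ from
          Set.eq_univ_of_forall fun x h1 => absurd h1 h, measure_univ]
    rw [hpre, Measure.prod_prod, hA, hB, prod_split s fun w => ν (t w)]
  have hfw : Measurable (fun ζ : List ℕ → X => (ζ [], fun (i : ℕ) (u : List ℕ) => ζ (i :: u))) :=
    (measurable_pi_apply _).prodMk
      (measurable_pi_iff.2 fun i => measurable_pi_iff.2 fun u => measurable_pi_apply _)
  conv_lhs => rw [← key, Measure.map_map hfw hinv]
  have hid : (fun ζ : List ℕ → X => (ζ [], fun (i : ℕ) (u : List ℕ) => ζ (i :: u))) ∘ ivv =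
      id := rfl
  rw [hid, Measure.map_id]

end Pool.Agent.N340.BT
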